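/-!
# Names of namespaces (so that they can be opened)
-/

namespace Pool.Agent.Helper20.PC
end Pool.Agent.Helper20.PC
namespace Pool.Agent.Helper20.HP
end Pool.Agent.Helper20.HP
namespace Pool.Agent.Helper20.M8
end Pool.Agent.Helper20.M8
namespace Pool.Agent.Helper20.MB
end Pool.Agent.Helper20.MB
namespace Pool.Agent.Helper46.M8
end Pool.Agent.Helper46.M8
namespace Pool.Agent.Helper46.M8.SC
end Pool.Agent.Helper46.M8.SC
namespace Pool.Agent.Helper81.M9
end Pool.Agent.Helper81.M9
namespace Pool.Agent.Helper46.Gen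
end Pool.Agent.Helper46.Gen
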