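import Pool.Agent.Helper20.HP.Jet
import Pool.Agent.Helper46.M8.Ns

/-!
# Data for the metric of positive curvature on `M⁸ = S(ℝ ⊕ T ℂP²)`

* `V = ℂ²` : affine chart of `ℂP²`.
* `Bs` : a basis of `su(3)`.
* `KA A` : the Killing field of the matrix `A` on the affine chart.
* the base metric is the inverse of `∑ (C₀ + δ I)_{ij} K_i ⊗ K_j`.
-/

open Filter Metric Module Set
open scoped Topology ContDiff Matrix Matrix.Norms.Elementwise ComplexConjugate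

namespace Pool.Agent.Helper46.M8
open Pool.Agent.Helper20.PC Pool.Agent.Helper20.HP

/-- affine chart of `ℂP²`. -/
abbrev V := Fin 2 → ℂ
/-- `3 × 3` complex matrices. -/
abbrev Mat := Matrix (Fin 3) (Fin 3) ℂ

/-! ### the Lie algebra -/

/-- a basis of `su(3)`, orthogonal for `-tr(ab)/2`, with square norms `1,1,1,1,1,1,1,3`. -/
noncomputable def Bs : Fin 8 → Mat := ![
  !![0, Complex.I, 0; Complex.I, 0, 0; 0, 0, 0],
  !![0, 1, 0; -1, 0, 0; 0, 0, 0],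
  !![0, 0, Complex.I; 0, 0, 0; Complex.I, 0, 0],
  !![0, 0, 1; 0, 0, 0; -1, 0, 0],
  !![0, 0, 0; 0, 0, Complex.I; 0, Complex.I, 0],
  !![0, 0, 0; 0, 0, 1; 0, -1, 0],
  !![Complex.I, 0, 0; 0, -Complex.I, 0; 0, 0, 0],
  !![Complex.I, 0, 0; 0, Complex.I, 0; 0, 0, -2 * Complex.I]]

/-- the inverse of the Gram matrix of `Bs`. -/
noncomputable def C0 : Fin 8 → Fin 8 → ℝ := fun i j => if i = j then (if i = 7 then 1/3 else 1) else 0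

/-- the inertia matrix `I`. -/
def Ii : Matrix (Fin 8) (Fin 8) ℝ := !![
   0, -3,  0,  2,  0, -3,  0,  0;
  -3,  0,  0,  0, -3,  0, -3,  1;
   0,  0,  0,  0,  0, -1,  0,  0;
   2,  0,  0,  0,  0,  0, -2,  0;
   0, -3,  0,  0,  0,  0,  0,  0;
  -3,  0, -1,  0,  0,  0,  0,  0;
   0, -3,  0, -2,  0,  0,  0,  0;
   0,  1,  0,  0,  0,  0,  0,  0]

noncomputable def Cm (δ : ℝ) (i j : Fin 8) : ℝ := C0 i j + δ * Ii i j

/-! ### polynomials on `su(3)`, in the coordinates `x` with `a = ∑ x_i B_i` -/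
section generic
variable {R : Type*} [CommRing R]

/-- `det (-i a)`. -/
def detx (x : Fin 8 → R) : R :=
  2 * x 0 ^ 2 * x 7 + 2 * x 0 * x 2 * x 4 + 2 * x 0 * x 3 * x 5 + 2 * x 1 ^ 2 * x 7
    - 2 * x 1 * x 2 * x 5 + 2 * x 1 * x 3 * x 4 + x 2 ^ 2 * x 6 - x 2 ^ 2 * x 7 + x 3 ^ 2 * x 6
    - x 3 ^ 2 * x 7 - x 4 ^ 2 * x 6 - x 4 ^ 2 * x 7 - x 5 ^ 2 * x 6 - x 5 ^ 2 * x 7
    + 2 * x 6 ^ 2 * x 7 - 2 * x 7 ^ 3

/-- the slow flow `a' = [ω, a]`, `ω = ∑ I_{ij} m_j B_i`, `m_j = ⟨a, B_j⟩`. -/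
def Ex (x : Fin 8 → R) : Fin 8 → R := ![
  6 * x 0 * x 6 + 4 * x 4 * x 6 + 6 * x 6 ^ 2 - 6 * x 6 * x 7 + x 5 ^ 2 + 2 * x 0 * x 4
    - x 1 * x 3 - 3 * x 0 * x 2 - x 2 ^ 2 - 6 * x 1 ^ 2,
  -6 * x 1 * x 6 + 4 * x 3 * x 6 - 4 * x 5 * x 6 + x 4 * x 5 - 2 * x 0 * x 5 - 3 * x 1 * x 2
    + x 0 * x 3 - x 2 * x 3 + 6 * x 0 * x 1,
  -3 * x 1 * x 5 + 2 * x 3 * x 5 - 3 * x 5 ^ 2 - 3 * x 0 * x 4 - 3 * x 4 ^ 2 - 3 * x 4 * x 6
    + 3 * x 4 * x 7 - 2 * x 0 * x 6 + 2 * x 6 ^ 2 - 6 * x 0 * x 7 + 6 * x 6 * x 7 + 3 * x 1 ^ 2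
    + 3 * x 0 ^ 2 + x 0 * x 2 - 2 * x 3 ^ 2,
  3 * x 1 * x 4 - 2 * x 3 * x 4 - 3 * x 0 * x 5 - 4 * x 5 * x 6 + x 1 * x 2 + 2 * x 2 * x 3,
  -3 * x 1 * x 3 + 2 * x 3 ^ 2 - x 3 * x 5 + 3 * x 0 * x 2 + 3 * x 2 * x 4 + 2 * x 2 * x 6
    + 5 * x 1 * x 5 - 2 * x 0 ^ 2 - x 0 * x 6 + 9 * x 0 * x 7,
  3 * x 1 * x 2 - 2 * x 2 * x 3 + 3 * x 2 * x 5 + 3 * x 0 * x 3 + x 3 * x 4 + 3 * x 3 * x 6
    - 3 * x 3 * x 7 - x 0 * x 5 + 2 * x 0 * x 1 + x 1 * x 6 - 9 * x 1 * x 7 - 6 * x 1 * x 4,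
  6 * x 1 ^ 2 - 4 * x 1 * x 3 + 3 * x 1 * x 5 - 6 * x 0 ^ 2 - 3 * x 0 * x 4 - 6 * x 0 * x 6
    + 6 * x 0 * x 7 + x 3 * x 5 + 2 * x 0 * x 2 - 2 * x 2 * x 6 + x 2 * x 4,
  x 3 * x 5 + 2 * x 0 * x 2 - 2 * x 2 * x 6 + 3 * x 1 * x 5 - 3 * x 0 * x 4 - x 2 * x 4]

/-- the quadratic form `F`. -/
def Fx (x : Fin 8 → R) : R :=
  15 * x 0 ^ 2 + 15 * x 0 * x 2 - 2 * x 0 * x 4 + 19 * x 0 * x 6 - 4 * x 0 * x 7 + 2 * x 1 ^ 2
    + 6 * x 1 * x 3 + x 1 * x 5 + 2 * x 2 ^ 2 - x 2 * x 4 + 9 * x 2 * x 6 + 2 * x 2 * x 7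
    - x 3 ^ 2 - 2 * x 3 * x 5 - 6 * x 4 * x 6 + x 4 * x 7 - 2 * x 5 ^ 2 + 18 * x 6 ^ 2
    - 11 * x 6 * x 7

end generic

/-- the second derivative of `F` along the slow flow. -/
def PhiDD (x : Fin 8 → ℝ) : ℝ :=
  (Fx (R := J2) (fun i => ⟨x i, Ex x i, (Ex (R := J2) (fun j => ⟨x j, Ex x j, 0⟩) i).b⟩)).c

/-- coordinates `x` from the momentum coordinates `m_i = ⟨a, B_i⟩`. -/
noncomputable def xc {R : Type*} [CommRing R] [Algebra ℝ R] (m : Fin 8 → R) : Fin 8 → R :=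
  fun i => if i = 7 then (1/3 : ℝ) • m 7 else m i

/-! ### Killing fields and metrics -/

/-- the Killing field of `A` on the affine chart. -/
def KA (A : Mat) (z : V) : V := fun i =>
  A i.succ 0 + ∑ j, A i.succ j.succ * z j - z i * (A 0 0 + ∑ j, A 0 j.succ * z j)

/-- the Killing fields of the basis, conjugated by `U`. -/
noncomputable def Kf (U : Mat) (i : Fin 8) (z : V) : V := KA (Uᴴ * Bs i * U) z

/-- hermitian product. -/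
noncomputable def hip (u v : V) : ℂ := ∑ i, conj (u i) * v i

noncomputable def nz (z : V) : ℝ := 1 + ∑ i, Complex.normSq (z i)

lemma nz_pos (z : V) : 0 < nz z := by
  unfold nz
  have : 0 ≤ ∑ i, Complex.normSq (z i) := Finset.sum_nonneg fun i _ => Complex.normSq_nonneg _
  linarith

/-- the Fubini-Study metric. -/
noncomputable def h0f (z u v : V) : ℝ :=
  (nz z * (hip u v).re - (hip u z * hip z v).re) / nz z ^ 2

lemma h0f_bil (z : V) : IsBilinearMap ℝ (h0f z) where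
  add_left u v w := by simp [h0f, hip]; ring
  smul_left c u v := by simp [h0f, hip]; ring
  add_right u v w := by simp [h0f, hip]; ring
  smul_right c u v := by simp [h0f, hip]; ring

noncomputable def h0 (z : V) : V →L[ℝ] V →L[ℝ] ℝ := (h0f_bil z).toContinuousBilinearMap

@[simp] lemma h0_apply (z u v : V) : h0 z u v = h0f z u v := rfl

/-- multiplication by `i`. -/
noncomputable def iL : V →L[ℝ] V :=
  LinearMap.toContinuousLinearMap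
    { toFun := fun v => Complex.I • v
      map_add' := fun u v => by simp
      map_smul' := fun r v => by ext i; simp; ring }

@[simp] lemma iL_apply (v : V) : iL v = Complex.I • v := rfl

/-- the Kaehler form `ω(u,v) = h₀(iu,v)`. -/
noncomputable def omL (z : V) : V →L[ℝ] V →L[ℝ] ℝ := (h0 z) ∘L iL

/-- the cometric. -/
noncomputable def CC (U : Mat) (δ : ℝ) (z : V) : (V →L[ℝ] ℝ) →L[ℝ] V :=
  ∑ i, ∑ j, Cm δ i j • (ContinuousLinearMap.apply ℝ ℝ (Kf U i z)).smulRight (Kf U j z)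

lemma CC_apply (U : Mat) (δ : ℝ) (z : V) (ξ : V →L[ℝ] ℝ) :
    CC U δ z ξ = ∑ i, ∑ j, (Cm δ i j * ξ (Kf U i z)) • Kf U j z := by
  simp [CC, smul_smul]

/-- the base metric. -/
noncomputable def hm (U : Mat) (δ : ℝ) (z : V) : V →L[ℝ] V →L[ℝ] ℝ := (CC U δ z).inverse

/-- the endomorphism `𝒥` with `h(𝒥 w, w') = ω(w,w')`. -/
noncomputable def JJ (U : Mat) (δ : ℝ) (z : V) : V →L[ℝ] V := (CC U δ z) ∘L (omL z)

/-- momentum coordinates of the covector `h(w,·)`. -/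
noncomputable def mom (U : Mat) (δ : ℝ) (z w : V) (i : Fin 8) : ℝ := hm U δ z w (Kf U i z)

end Pool.Agent.Helper46.M8
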