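import Pool.Agent.Helper46.M8.Frame

/-!
# Further definitions
-/

open Filter Metric Module Set
open scoped Topology ContDiff Matrix Matrix.Norms.Elementwise ComplexConjugate

set_option maxSynthPendingDepth 3

namespace Pool.Agent.Helper46.M8
open Pool.Agent.Helper20.PC Pool.Agent.Helper20.HP Pool.Agent.Helper20.M8 Pool.Agent.Helper20.MB

/-- the slow flow in momentum coordinates `m_i = ⟨a, B_i⟩`. -/
noncomputable def Em (m : Fin 8 → ℝ) (i : Fin 8) : ℝ := (if i = 7 then 3 else 1) * Ex (xc m) i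

/-- hermitian Fubini-Study form. -/
noncomputable def Hf (z u v : V) : ℂ := (nz z * hip u v - hip u z * hip z v) / (nz z : ℂ) ^ 2

/-- parameters `(U, δ, ε)`. -/
abbrev Pm := Mat × ℝ × ℝ

/-- `W` is an orthonormal frame of the metric `G`. -/
def ON (G : V →L[ℝ] V →L[ℝ] ℝ) (W : Fin 4 → V) : Prop :=
  ∀ a b, G (W a) (W b) = if a = b then 1 else 0

/-- the constraints on `(c, w, β)`. -/
def Cns (ε c : ℝ) (w : Fin 4 → ℝ) (β : Fin 4 → Fin 4 → ℝ) : Prop :=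
  w 0 = 0 ∧ (∀ a b, β a b = - β b a) ∧
    (∀ i j, i ≠ 0 → j ≠ 0 → c * β i j = ε * (w i * β 0 j - w j * β 0 i)) ∧
    β 0 1 * β 2 3 - β 0 2 * β 1 3 + β 0 3 * β 1 2 = 0

/-- the jet of `ρ` at `δ = 0`. -/
def rho0 (om : Fin 4 → Fin 4 → ℝ) (k a b : Fin 4) : ℝ :=
  (if k = b then 1 else 0) * (if a = 0 then 1 else 0) - (if b = 0 then 1 else 0) * (if a = k then 1 else 0)
    + om k b * om 0 a - om 0 b * om k a - 2 * om 0 k * om b a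

/-- the limit of (T) for `δ, ε → 0` without the term in `F`. -/
noncomputable def Tlim (om : Fin 4 → Fin 4 → ℝ) (th u c : ℝ) (w : Fin 4 → ℝ)
    (β : Fin 4 → Fin 4 → ℝ) : ℝ :=
  Tj 0 0 (1 + 3 * om 0 1 ^ 2) (fun a b => J2.C (om a b)) (fun a b => J2.C (if a = b then 1 else 0))
    (fun a i => if a = 0 ∧ i = 6 then J2.C th else 0) (fun k a b => J2.C (rho0 om k a b))
    (fun _ _ _ => 0) u c w β

def dot3 (a b : Fin 3 → ℝ) : ℝ := a 0 * b 0 + a 1 * b 1 + a 2 * b 2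

/-- closed form of `Tlim`: `v = (om01, om02, om03)`, `z = (β01, β02, β03)`,
`B = (β23, -β13, β12)`. -/
noncomputable def TlimF (σ th u c : ℝ) (v w z B : Fin 3 → ℝ) : ℝ :=
  let O : Fin 3 → ℝ := fun i => c * th / 2 * v i + 3/4 * z i + 3 * dot3 v z * v i - σ * B i
    + 3 * σ * dot3 v B * v i
  u ^ 2 + 3 * v 0 ^ 2 * u ^ 2 - (3/8) * u * w 0 - (3/2) * dot3 v w * v 0 * u + (1/4) * dot3 O O
    + (1/2) * ((1/10) * (- dot3 z z + 2 * th * c * dot3 v z + dot3 w w)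
      + (5/2) * ((1/2) * dot3 v w ^ 2
        + 2 * (dot3 v z + σ * dot3 v B) * (-(1/4) * dot3 v z + th * c / 2))
      + (183/10) * (th * c) * (-(1/4) * dot3 v z + th * c / 2))

/-- the orbit of the momentum map of unit covectors at `δ = 0` (in coordinates `x`). -/
def Orb : Set (Fin 8 → ℝ) :=
  {x | x 0 ^ 2 + x 1 ^ 2 + x 2 ^ 2 + x 3 ^ 2 + x 4 ^ 2 + x 5 ^ 2 + x 6 ^ 2 + 3 * x 7 ^ 2 = 1 ∧ detx x = 0}

/-! ### frames with two vectors of the fibre -/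

/-- `(frame, y, p)`. -/
abbrev Fs := Fr × Yf × Yf

/-- the flow on `Fs`. -/
noncomputable def XB (U : Mat) (δ ε : ℝ) (s : Fs) : Fs :=
  (XF U δ s.1, - AL U δ ε s.1.1 (s.1.2 0) s.2.1, - AL U δ ε s.1.1 (s.1.2 0) s.2.2)

/-- `c = ε (y_e p₀ - p_e y₀)`. -/
noncomputable def cS (U : Mat) (δ ε : ℝ) (s : Fs) : ℝ :=
  ε * (s.2.1.1 * hm U δ s.1.1 s.2.2.2 (s.1.2 0) - s.2.2.1 * hm U δ s.1.1 s.2.1.2 (s.1.2 0))

/-- `wᵢ = y_e pᵢ - p_e yᵢ`. -/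
noncomputable def wS (U : Mat) (δ : ℝ) (s : Fs) (i : Fin 4) : ℝ :=
  if i = 0 then 0 else
    s.2.1.1 * hm U δ s.1.1 s.2.2.2 (s.1.2 i) - s.2.2.1 * hm U δ s.1.1 s.2.1.2 (s.1.2 i)

/-- `β_{ab} = y_a p_b - y_b p_a`. -/
noncomputable def bS (U : Mat) (δ : ℝ) (s : Fs) (a b : Fin 4) : ℝ :=
  hm U δ s.1.1 s.2.1.2 (s.1.2 a) * hm U δ s.1.1 s.2.2.2 (s.1.2 b)
    - hm U δ s.1.1 s.2.1.2 (s.1.2 b) * hm U δ s.1.1 s.2.2.2 (s.1.2 a)

/-- configurations `(U, δ, ε; W; u, c, w, β)`. -/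
abbrev Cf := Pm × (Fin 4 → V) × ℝ × ℝ × (Fin 4 → ℝ) × (Fin 4 → Fin 4 → ℝ)

noncomputable def TFp (lam : ℝ) (q : Cf) : ℝ :=
  TF q.1.1 q.1.2.1 q.1.2.2 lam q.2.1 q.2.2.1 q.2.2.2.1 q.2.2.2.2.1 q.2.2.2.2.2

/-- square norm of `(u, c, w, β)`. -/
def nrm (u c : ℝ) (w : Fin 4 → ℝ) (β : Fin 4 → Fin 4 → ℝ) : ℝ :=
  u ^ 2 + c ^ 2 + ∑ i, w i ^ 2 + ∑ a, ∑ b, β a b ^ 2

/-- the compact set of configurations. -/
def Kc : Set Cf :=
  {q | q.1.1ᴴ * q.1.1 = 1 ∧ 0 ≤ q.1.2.1 ∧ q.1.2.1 ≤ 1/100 ∧ 0 ≤ q.1.2.2 ∧ q.1.2.2 ≤ 1 ∧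
    ON (hm q.1.1 q.1.2.1 0) q.2.1 ∧ Cns q.1.2.2 q.2.2.2.1 q.2.2.2.2.1 q.2.2.2.2.2 ∧
    nrm q.2.2.1 q.2.2.2.1 q.2.2.2.2.1 q.2.2.2.2.2 = 1}

/-- first order jets. -/
def HasJ1 (f : ℝ → ℝ) (j : J2) : Prop := f 0 = j.a ∧ HasDerivAt f j.b 0

/-- continuity of the components of a family of jets. -/
def ContJ {X : Type*} [TopologicalSpace X] (S : Set X) (j : X → J2) : Prop :=
  ContinuousOn (fun x => (j x).a) S ∧ ContinuousOn (fun x => (j x).b) S ∧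
    ContinuousOn (fun x => (j x).c) S

end Pool.Agent.Helper46.M8
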