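import Pool.Agent.Helper20.PC.Curv

/-!
# Connection form and quartic forms, general part
-/

open Filter Metric Module Set
open scoped Topology ContDiff

set_option maxSynthPendingDepth 3

namespace Pool.Agent.Helper46.M8
open Pool.Agent.Helper20.PC

section gen
variable {W Y : Type*} [NormedAddCommGroup W] [NormedSpace ℝ W] [NormedAddCommGroup Y]
  [NormedSpace ℝ Y]

/-- Christoffel symbols of the first kind, as a continuous trilinear form. -/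
noncomputable def chrL (G : W → W →L[ℝ] W →L[ℝ] ℝ) (z : W) : W →L[ℝ] W →L[ℝ] W →L[ℝ] ℝ :=
  (1 / 2 : ℝ) • (fderiv ℝ G z + (fderiv ℝ G z).flip
    - (ContinuousLinearMap.flipₗᵢ ℝ W W ℝ).toContinuousLinearEquiv.toContinuousLinearMap ∘L
        (fderiv ℝ G z).flip)

lemma chrL_apply (G : W → W →L[ℝ] W →L[ℝ] ℝ) (z u v w : W) :
    chrL G z u v w = (1 / 2) * (fderiv ℝ G z u v w + fderiv ℝ G z v u w - fderiv ℝ G z w u v) := by
  simp [chrL]

/-- the Levi-Civita connection form as a continuous bilinear map. -/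
noncomputable def GamL (G : W → W →L[ℝ] W →L[ℝ] ℝ) (z : W) : W →L[ℝ] W →L[ℝ] W :=
  ((ContinuousLinearMap.compL ℝ W (W →L[ℝ] ℝ) W) (G z).inverse) ∘L (chrL G z)

lemma GamL_apply (G : W → W →L[ℝ] W →L[ℝ] ℝ) (z u v : W) :
    GamL G z u v = (G z).inverse (chrL G z u v) := rfl

lemma GamL_eq {G : W → W →L[ℝ] W →L[ℝ] ℝ} {z : W} (hG : ContDiffAt ℝ 2 G z) (u v : W) :
    GamL G z u v = Gam G z u v := by
  rw [GamL_apply, Gam]
  congr 1
  ext w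
  have e : ∀ a b c : W, fderiv ℝ G z a b c = dG G z a b c := by
    intro a b c
    have h1 := (((hG.differentiableAt (by norm_num)).hasFDerivAt.clm_apply
      (hasFDerivAt_const b z)).clm_apply (hasFDerivAt_const c z)).fderiv
    rw [dG, h1]
    simp
  rw [chrL_apply, chr_apply hG, e, e, e]

/-- `(y,p,y',p') ↦ a(y,y') b(p,p')`. -/
noncomputable def tens (a b : Y →L[ℝ] Y →L[ℝ] ℝ) : Y →L[ℝ] Y →L[ℝ] Y →L[ℝ] Y →L[ℝ] ℝ :=
  ((ContinuousLinearMap.compL ℝ Y (Y →L[ℝ] ℝ) (Y →L[ℝ] Y →L[ℝ] ℝ)).flip b) ∘L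
    ((ContinuousLinearMap.smulRightL ℝ Y (Y →L[ℝ] ℝ))) ∘L a

/-- `(y,p,y',p') ↦ a(y,p) b(y',p')`. -/
noncomputable def tens2 (a b : Y →L[ℝ] Y →L[ℝ] ℝ) : Y →L[ℝ] Y →L[ℝ] Y →L[ℝ] Y →L[ℝ] ℝ :=
  ((ContinuousLinearMap.smulRightL ℝ Y (Y →L[ℝ] Y →L[ℝ] ℝ)).flip b) ∘L a

@[simp] lemma tens2_apply (a b : Y →L[ℝ] Y →L[ℝ] ℝ) (y p y' p' : Y) :
    tens2 a b y p y' p' = a y p * b y' p' := by
  simp [tens2]

@[simp] lemma tens_apply (a b : Y →L[ℝ] Y →L[ℝ] ℝ) (y p y' p' : Y) :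
    tens a b y p y' p' = a y y' * b p p' := by
  simp [tens]

end gen

end Pool.Agent.Helper46.M8
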