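import Pool.Agent.Helper20.PC.Curv
import Pool.Agent.Helper46.M8.Basic
import Pool.Agent.Helper46.M8.FibG
import Pool.Agent.Helper46.M8.Ns

/-!
# The bundle `E = ℝ e ⊕ T ℂP²`: connection, metric and the quartic form `S`
-/

open Filter Metric Module Set
open scoped Topology ContDiff Matrix Matrix.Norms.Elementwise ComplexConjugate

set_option maxSynthPendingDepth 3

namespace Pool.Agent.Helper46.M8
open Pool.Agent.Helper20.PC Pool.Agent.Helper20.HP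

/-- the fibre `ℝ ⊕ T`. -/
abbrev Yf := ℝ × V

/-! ### the data -/

/-- projection to the `T`-part. -/
noncomputable abbrev pT : Yf →L[ℝ] V := ContinuousLinearMap.snd ℝ ℝ V

/-- pull back of a bilinear form on `T` to the fibre. -/
noncomputable def bT (b : V →L[ℝ] V →L[ℝ] ℝ) : Yf →L[ℝ] Yf →L[ℝ] ℝ := b.bilinearComp pT pT

@[simp] lemma bT_apply (b : V →L[ℝ] V →L[ℝ] ℝ) (y p : Yf) : bT b y p = b y.2 p.2 := rfl

/-- `(y,p) ↦ ξ(s_y w_p - s_p w_y)`. -/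
noncomputable def aT (ξ : V →L[ℝ] ℝ) : Yf →L[ℝ] Yf →L[ℝ] ℝ :=
  IsBilinearMap.toContinuousBilinearMap (𝕜 := ℝ) (f := fun y p : Yf => ξ (y.1 • p.2 - p.1 • y.2))
    ⟨fun a b c => by simp [add_smul]; ring, fun r a b => by simp; ring,
     fun a b c => by simp [add_smul]; ring, fun r a b => by simp; ring⟩

@[simp] lemma aT_apply (ξ : V →L[ℝ] ℝ) (y p : Yf) : aT ξ y p = ξ (y.1 • p.2 - p.1 • y.2) := rfl

/-- the covector `m_i = h(·, K_i)`. -/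
noncomputable def momL (U : Mat) (δ : ℝ) (z : V) (i : Fin 8) : V →L[ℝ] ℝ :=
  (hm U δ z).flip (Kf U i z)

lemma momL_apply (U : Mat) (δ : ℝ) (z w : V) (i : Fin 8) : momL U δ z i w = hm U δ z w (Kf U i z) := rfl

/-- the fibre metric. -/
noncomputable def kL (U : Mat) (δ : ℝ) (z : V) : Yf →L[ℝ] Yf →L[ℝ] ℝ :=
  (ContinuousLinearMap.fst ℝ ℝ V).smulRight (ContinuousLinearMap.fst ℝ ℝ V) + bT (hm U δ z)

lemma kL_apply (U : Mat) (δ : ℝ) (z : V) (y p : Yf) :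
    kL U δ z y p = y.1 * p.1 + hm U δ z y.2 p.2 := by
  simp [kL]

/-- the connection. -/
noncomputable def AL (U : Mat) (δ ε : ℝ) (z : V) : V →L[ℝ] Yf →L[ℝ] Yf :=
  IsBilinearMap.toContinuousBilinearMap (𝕜 := ℝ)
    (f := fun (ζ : V) (y : Yf) => ((-(1/2) * hm U δ z ζ y.2,
      GamL (hm U δ) z ζ y.2 + (ε * momL U δ z 6 ζ) • JJ U δ z y.2 + (1/2 * y.1) • ζ) : Yf))
    ⟨fun a b c => by ext <;> simp [add_smul, mul_add] <;> ring,
     fun r a b => by ext <;> simp [smul_smul] <;> ring,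
     fun a b c => by ext <;> simp [add_smul, mul_add] <;> ring,
     fun r a b => by ext <;> simp [smul_smul] <;> ring⟩

lemma AL_apply (U : Mat) (δ ε : ℝ) (z ζ : V) (y : Yf) :
    AL U δ ε z ζ y = (-(1/2) * hm U δ z ζ y.2,
      GamL (hm U δ) z ζ y.2 + (ε * momL U δ z 6 ζ) • JJ U δ z y.2 + (1/2 * y.1) • ζ) := rfl

/-- the symmetric matrix of the quadratic form `F` in momentum coordinates. -/
noncomputable def Fsm : Matrix (Fin 8) (Fin 8) ℝ := !![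
   15, 0, 15/2, 0, -1, 0, 19/2, -2/3;
   0, 2, 0, 3, 0, 1/2, 0, 0;
   15/2, 0, 2, 0, -1/2, 0, 9/2, 1/3;
   0, 3, 0, -1, 0, -1, 0, 0;
   -1, 0, -1/2, 0, 0, 0, -3, 1/6;
   0, 1/2, 0, -1, 0, -2, 0, 0;
   19/2, 0, 9/2, 0, -3, 0, 18, -11/6;
   -2/3, 0, 1/3, 0, 1/6, 0, -11/6, 0]

/-- `Fsm` is the matrix of `F`. -/
lemma Fsm_eq (m : Fin 8 → ℝ) : ∑ i, ∑ j, Fsm i j * m i * m j = Fx (xc m) := by
  simp [Fin.sum_univ_succ, Fsm, Fx, xc, Fin.succ]
  ring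

/-- the quartic form `S`; `lam = κ / δ²`. -/
noncomputable def SL (U : Mat) (δ ε lam : ℝ) (z : V) : Yf →L[ℝ] Yf →L[ℝ] Yf →L[ℝ] Yf →L[ℝ] ℝ :=
  (1/5 : ℝ) • (tens (bT (h0 z)) (bT (h0 z)) - (tens (bT (h0 z)) (bT (h0 z))).flip)
    + (5/2 : ℝ) • tens2 (bT (omL z)) (bT (omL z))
    + (ε * (183/20)) • (tens2 (aT (momL U δ z 6)) (bT (omL z)) + tens2 (bT (omL z)) (aT (momL U δ z 6)))
    + (ε ^ 2 * lam) • ∑ i, ∑ j, Fsm i j • tens2 (aT (momL U δ z i)) (aT (momL U δ z j))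

lemma SL_apply (U : Mat) (δ ε lam : ℝ) (z : V) (y p y' p' : Yf) :
    SL U δ ε lam z y p y' p' =
      (1/5) * (h0 z y.2 y'.2 * h0 z p.2 p'.2 - h0 z p.2 y'.2 * h0 z y.2 p'.2)
      + (5/2) * (omL z y.2 p.2 * omL z y'.2 p'.2)
      + ε * (183/20) * (momL U δ z 6 (y.1 • p.2 - p.1 • y.2) * omL z y'.2 p'.2
          + omL z y.2 p.2 * momL U δ z 6 (y'.1 • p'.2 - p'.1 • y'.2))
      + ε ^ 2 * lam * ∑ i, ∑ j, Fsm i j * (momL U δ z i (y.1 • p.2 - p.1 • y.2)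
          * momL U δ z j (y'.1 • p'.2 - p'.1 • y'.2)) := by
  simp only [SL, _root_.add_apply, _root_.smul_apply, _root_.sub_apply, ContinuousLinearMap.flip_apply,
    tens_apply, tens2_apply, bT_apply, aT_apply, ContinuousLinearMap.sum_apply, smul_eq_mul]

end Pool.Agent.Helper46.M8
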