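import Mathlib

/-!
# Smooth immersions into a normed space
-/

open scoped Manifold ContDiff

namespace Pool.Agent.Helper46.M8

variable {E : Type*} [NormedAddCommGroup E] [NormedSpace ℝ E] {H : Type*} [TopologicalSpace H]
  (I : ModelWithCorners ℝ E H) {M : Type*} [TopologicalSpace M] [ChartedSpace H M]
  {F : Type*} [NormedAddCommGroup F] [NormedSpace ℝ F]

/-- The map `f` from the manifold `M` to the normed space `F` is a smooth immersion: it is smooth,
and its differentials are injective. -/
def IsSmoothImmersion (f : M → F) : Prop :=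
  ContMDiff I 𝓘(ℝ, F) ∞ f ∧ ∀ p : M, Function.Injective (mfderiv I 𝓘(ℝ, F) f p)

end Pool.Agent.Helper46.M8
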