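import Pool.Agent.Helper46.M8.St.R1
import Pool.Agent.Helper46.M8.St.R2
import Pool.Agent.Helper46.M8.SC.Main
import Pool.Agent.Helper46.M8.Imm

/-!
# The final form of the theorem on `M⁸`
-/

open Set Metric
open scoped Manifold ContDiff Matrix

namespace Pool.Agent.Helper46.M8
open Pool.Agent.Helper20.HP

/-- the inclusion in the space of matrices. -/
def inclM8 (Q : M8) : Fin 3 → Fin 3 → ℂ := fun i j => (Q : Mat) i j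

theorem M8_immersion [ChartedSpace (EuclideanSpace ℝ (Fin 8)) M8] [IsManifold (𝓡 8) ∞ M8]
    (h1 : ∀ i j, ContMDiff (𝓡 8) 𝓘(ℝ, ℂ) ∞ (fun Q : M8 => (Q : Mat) i j))
    (h2 : ∀ (p : M8) (u : TangentSpace (𝓡 8) p),
      (∀ i j, mfderiv (𝓡 8) 𝓘(ℝ, ℂ) (fun Q : M8 => (Q : Mat) i j) p u = 0) → u = 0) :
    IsSmoothImmersion (𝓡 8) inclM8 := by
  have hs : ContMDiff (𝓡 8) 𝓘(ℝ, Fin 3 → Fin 3 → ℂ) ∞ inclM8 := by
    rw [contMDiff_pi_space]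
    intro i
    rw [contMDiff_pi_space]
    intro j
    exact h1 i j
  refine ⟨hs, fun p => ?_⟩
  rw [injective_iff_map_eq_zero]
  intro u hu
  refine h2 p u fun i j => ?_
  let L : (Fin 3 → Fin 3 → ℂ) →L[ℝ] ℂ :=
    (ContinuousLinearMap.proj j : (Fin 3 → ℂ) →L[ℝ] ℂ).comp
      (ContinuousLinearMap.proj i : (Fin 3 → Fin 3 → ℂ) →L[ℝ] (Fin 3 → ℂ))
  have hL : MDifferentiableAt 𝓘(ℝ, Fin 3 → Fin 3 → ℂ) 𝓘(ℝ, ℂ) L (inclM8 p) :=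
    L.differentiableAt.mdifferentiableAt
  have e1 := mfderiv_comp (I := 𝓡 8) (I' := 𝓘(ℝ, Fin 3 → Fin 3 → ℂ)) (I'' := 𝓘(ℝ, ℂ))
    (f := inclM8) (g := L) p hL ((hs p).mdifferentiableAt (by simp))
  rw [mfderiv_eq_fderiv, L.fderiv] at e1
  have e2 := DFunLike.congr_fun e1 u
  have e3 : mfderiv (𝓡 8) 𝓘(ℝ, ℂ) (fun Q : M8 => (Q : Mat) i j) p u
      = L (mfderiv (𝓡 8) 𝓘(ℝ, Fin 3 → Fin 3 → ℂ) inclM8 p u) := e2
  rw [e3, hu]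
  exact map_zero L

theorem M8_final : ∃ (_ : ChartedSpace (EuclideanSpace ℝ (Fin 8)) M8) (_ : IsManifold (𝓡 8) ∞ M8),
    IsSmoothImmersion (𝓡 8) inclM8 ∧ AdmitsPositiveCurvature (𝓡 8) M8 := by
  obtain ⟨i1, i2, h1, h2, h3⟩ := M8_result
  exact ⟨i1, i2, M8_immersion h1 h2, h3⟩

end Pool.Agent.Helper46.M8
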