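import Pool.Agent.Helper46.M8.Fib
import Pool.Agent.Helper20.MB.Defs

/-!
# Frames, jets and the algebraic form of condition (T)
-/

open Filter Metric Module Set
open scoped Topology ContDiff Matrix Matrix.Norms.Elementwise ComplexConjugate

set_option maxSynthPendingDepth 3

namespace Pool.Agent.Helper46.M8
open Pool.Agent.Helper20.PC Pool.Agent.Helper20.HP Pool.Agent.Helper20.M8 Pool.Agent.Helper20.MB

/-- the bundle data; `lam = κ / δ²`. -/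
noncomputable def Dd (U : Mat) (δ ε lam : ℝ) : BD V Yf where
  h := hm U δ
  A := AL U δ ε
  k := kL U δ
  S := SL U δ ε lam

/-! ### frames -/

/-- `(x, W₀, W₁, W₂, W₃)`. -/
abbrev Fr := V × (Fin 4 → V)

/-- the geodesic flow on frames (in the direction `W₀`). -/
noncomputable def XF (U : Mat) (δ : ℝ) (s : Fr) : Fr :=
  (s.2 0, fun a => - Gam (hm U δ) s.1 (s.2 0) (s.2 a))

noncomputable def sOm (a b : Fin 4) (s : Fr) : ℝ := omL s.1 (s.2 a) (s.2 b)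
noncomputable def sF (a b : Fin 4) (s : Fr) : ℝ := h0 s.1 (s.2 a) (s.2 b)
noncomputable def sM (U : Mat) (δ : ℝ) (a : Fin 4) (i : Fin 8) (s : Fr) : ℝ :=
  momL U δ s.1 i (s.2 a)
noncomputable def sR (U : Mat) (δ : ℝ) (k a b : Fin 4) (s : Fr) : ℝ :=
  hm U δ s.1 (s.2 a) (Riem (hm U δ) s.1 (s.2 0) (s.2 k) (s.2 b))
/-- the `T`-part of the coefficient of `ε` in the curvature of the connection. -/
noncomputable def sQ (U : Mat) (δ : ℝ) (k a b : Fin 4) (s : Fr) : ℝ :=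
  hm U δ s.1 (s.2 a) ((OmV (AL U δ 1) s.1 (s.2 0) (s.2 k) (0, s.2 b)).2
    - (OmV (AL U δ 0) s.1 (s.2 0) (s.2 k) (0, s.2 b)).2)

/-- the jet of `f` along the flow of `X` at `s`. -/
noncomputable def jetF {E : Type*} [NormedAddCommGroup E] [NormedSpace ℝ E] (X : E → E) (f : E → ℝ)
    (s : E) : J2 := ⟨f s, lie X f s, lie X (lie X f) s⟩

/-! ### the algebraic form of (T) -/

section generic
variable {R : Type*} [CommRing R] [Algebra ℝ R]

/-- evolution of `c`, `w`, `β` (a parallel bivector is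
`b = (c/ε) e∧W₀ + ∑ wᵢ e∧Wᵢ + ½ ∑ β_{ab} W_a∧W_b`, `w₀ = 0`). -/
def dc (ε : ℝ) (th : R) (om : Fin 4 → Fin 4 → R) (w : Fin 4 → R) : R :=
  (ε ^ 2) • (th * ∑ i, w i * om 0 i)

noncomputable def dw (ε : ℝ) (th : R) (om : Fin 4 → Fin 4 → R) (c : R) (w : Fin 4 → R)
    (β : Fin 4 → Fin 4 → R) (i : Fin 4) : R :=
  if i = 0 then 0 else (1/2 : ℝ) • β 0 i + ε • (th * ∑ j, w j * om i j) + th * c * om i 0

noncomputable def dβ (ε : ℝ) (th : R) (om : Fin 4 → Fin 4 → R) (w : Fin 4 → R)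
    (β : Fin 4 → Fin 4 → R) (a b : Fin 4) : R :=
  (1/2 : ℝ) • ((if b = 0 then w a else 0) - (if a = 0 then w b else 0))
    + ε • (th * ∑ e, (om a e * β e b + om b e * β a e))

/-- the form `S` in the frame. -/
noncomputable def SG (ε lam : ℝ) (om f : Fin 4 → Fin 4 → R) (m : Fin 4 → Fin 8 → R) (c : R)
    (w : Fin 4 → R) (β : Fin 4 → Fin 4 → R) : R :=
  (1/10 : ℝ) • (∑ a, ∑ b, ∑ d, ∑ e, β a b * β d e * (f a d * f b e))
    + (5/2 : ℝ) • (((1/2 : ℝ) • ∑ a, ∑ b, β a b * om a b) ^ 2)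
    + (183/10 : ℝ) • ((∑ a, m a 6 * (if a = 0 then c else ε • w a))
        * ((1/2 : ℝ) • ∑ a, ∑ b, β a b * om a b))
    + lam • Fx (xc (fun i => ∑ a, m a i * (if a = 0 then c else ε • w a)))

/-- the curvature of the connection in the frame. -/
noncomputable def OG (ε : ℝ) (k : Fin 4) (om : Fin 4 → Fin 4 → R) (m : Fin 4 → Fin 8 → R)
    (rho q : Fin 4 → Fin 4 → Fin 4 → R) (c : R) (w : Fin 4 → R) (β : Fin 4 → Fin 4 → R) : R :=
  (1/2 : ℝ) • (c * (m 0 6 * om 0 k))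
    + (ε / 2) • (∑ i, w i * (m 0 6 * om i k - m k 6 * om i 0))
    + (1/2 : ℝ) • (∑ a, ∑ b, β a b * (rho k a b + ε • q k a b))
    - (1/8 : ℝ) • (β 0 k - β k 0)

end generic

/-- jets of `c`, `w`, `β`. -/
noncomputable def jc (ε : ℝ) (th : J2) (om : Fin 4 → Fin 4 → J2) (c : ℝ) (w : Fin 4 → ℝ)
    (β : Fin 4 → Fin 4 → ℝ) : J2 :=
  let om0 : Fin 4 → Fin 4 → ℝ := fun a b => (om a b).a
  ⟨c, dc ε th.a om0 w, (dc (R := J2) ε th om (fun i => ⟨w i, dw ε th.a om0 c w β i, 0⟩)).b⟩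

noncomputable def jw (ε : ℝ) (th : J2) (om : Fin 4 → Fin 4 → J2) (c : ℝ) (w : Fin 4 → ℝ)
    (β : Fin 4 → Fin 4 → ℝ) (i : Fin 4) : J2 :=
  let om0 : Fin 4 → Fin 4 → ℝ := fun a b => (om a b).a
  ⟨w i, dw ε th.a om0 c w β i, (dw (R := J2) ε th om ⟨c, dc ε th.a om0 w, 0⟩
    (fun i => ⟨w i, dw ε th.a om0 c w β i, 0⟩) (fun a b => ⟨β a b, dβ ε th.a om0 w β a b, 0⟩) i).b⟩

noncomputable def jβ (ε : ℝ) (th : J2) (om : Fin 4 → Fin 4 → J2) (c : ℝ) (w : Fin 4 → ℝ)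
    (β : Fin 4 → Fin 4 → ℝ) (a b : Fin 4) : J2 :=
  let om0 : Fin 4 → Fin 4 → ℝ := fun a b => (om a b).a
  ⟨β a b, dβ ε th.a om0 w β a b, (dβ (R := J2) ε th om
    (fun i => ⟨w i, dw ε th.a om0 c w β i, 0⟩) (fun a b => ⟨β a b, dβ ε th.a om0 w β a b, 0⟩) a b).b⟩

/-- The algebraic form of (T). `K` is the curvature of the plane `W₀ ∧ W₁`, `U = u W₁`. -/
noncomputable def Tj (ε lam K : ℝ) (om f : Fin 4 → Fin 4 → J2) (m : Fin 4 → Fin 8 → J2)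
    (rho q : Fin 4 → Fin 4 → Fin 4 → J2) (u c : ℝ) (w : Fin 4 → ℝ) (β : Fin 4 → Fin 4 → ℝ) : ℝ :=
  let C := jc ε (m 0 6) om c w β
  let W := jw ε (m 0 6) om c w β
  let B := jβ ε (m 0 6) om c w β
  K * u ^ 2 + u * (OG ε 1 om m rho q C W B).b
    + (1/4) * ∑ k : Fin 3, (OG ε k.succ om m rho q C W B).a ^ 2
    + (1/2) * (SG ε lam om f m C W B).c

/-- condition (T) for the metric, in a frame `W` at the origin. -/
noncomputable def TF (U : Mat) (δ ε lam : ℝ) (W : Fin 4 → V) (u c : ℝ) (w : Fin 4 → ℝ)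
    (β : Fin 4 → Fin 4 → ℝ) : ℝ :=
  Tj ε lam (num (hm U δ) 0 (W 0) (W 1)) (fun a b => jetF (XF U δ) (sOm a b) (0, W))
    (fun a b => jetF (XF U δ) (sF a b) (0, W)) (fun a i => jetF (XF U δ) (sM U δ a i) (0, W))
    (fun k a b => jetF (XF U δ) (sR U δ k a b) (0, W))
    (fun k a b => jetF (XF U δ) (sQ U δ k a b) (0, W)) u c w β

end Pool.Agent.Helper46.M8
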