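import Pool.Agent.Helper46.M8.Fib
import Pool.Agent.Helper46.M8.Ns

/-!
# `M⁸` as a submanifold of the `3 × 3` matrices
-/

open Filter Metric Module Set
open scoped Topology ContDiff Matrix Matrix.Norms.Elementwise ComplexConjugate Manifold

set_option maxSynthPendingDepth 3

namespace Pool.Agent.Helper46.M8
open Pool.Agent.Helper20.PC Pool.Agent.Helper20.HP Pool.Agent.Helper20.M8 Pool.Agent.Helper20.MB

/-- `M⁸` : the matrices `a bᴴ` with `|a| = |b| = 1` and `⟨b, a⟩` real; the unit sphere bundle of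
`ℝ ⊕ T ℂP²`: `[b] ∈ ℂP²`, `a = s b + w`, `s` real, `w ⊥ b`. -/
def M8 : Set Mat := {Q | Q * Qᴴ * Q = Q ∧ (Qᴴ * Q).trace = 1 ∧ Q.trace.im = 0}

/-- the vector `(1, z)`. -/
def Zv (z : V) : Fin 3 → ℂ := ![1, z 0, z 1]
/-- the vector `(0, w)`. -/
def Wv (w : V) : Fin 3 → ℂ := ![0, w 0, w 1]

/-! ### projective transformations -/
noncomputable def mob (g : Mat) (z : V) : V := fun i => (g *ᵥ Zv z) i.succ / (g *ᵥ Zv z) 0

noncomputable def dmob (g : Mat) (z w : V) : V := fun i =>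
  ((g *ᵥ Wv w) i.succ - mob g z i * (g *ᵥ Wv w) 0) / (g *ᵥ Zv z) 0

noncomputable def ddmob (g : Mat) (z w w' : V) : V := fun i =>
  - ((g *ᵥ Wv w) 0 * dmob g z w' i + (g *ᵥ Wv w') 0 * dmob g z w i) / (g *ᵥ Zv z) 0

/-- the action on the bundle `ℝ ⊕ T`. -/
noncomputable def Phi (g : Mat) (x : V × Yf) : V × Yf := (mob g x.1, (x.2.1, dmob g x.1 x.2.2))

noncomputable def dPhi (g : Mat) (x u : V × Yf) : V × Yf :=
  (dmob g x.1 u.1, (u.2.1, dmob g x.1 u.2.2 + ddmob g x.1 x.2.2 u.1))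

/-! ### parametrisation of `M⁸` -/
/-- the square of the Fubini-Study norm of a vector of the fibre. -/
noncomputable def fn (x : V × Yf) : ℝ := x.2.1 ^ 2 + h0 x.1 x.2.2 x.2.2

noncomputable def Theta (x : V × Yf) : Mat :=
  (((Real.sqrt (fn x))⁻¹ : ℝ) : ℂ) •
    (((x.2.1 / nz x.1 : ℝ) : ℂ) • Matrix.vecMulVec (Zv x.1) (star (Zv x.1))
      + ((nz x.1 : ℂ) ^ 2)⁻¹ •
        Matrix.vecMulVec ((nz x.1 : ℂ) • Wv x.2.2 - hip x.1 x.2.2 • Zv x.1) (star (Zv x.1)))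

noncomputable def zX (Q : Mat) : V := fun i => (Qᴴ * Q) i.succ 0 / (Qᴴ * Q) 0 0

noncomputable def wX (Q : Mat) : V := fun i =>
  ((Q - (Q.trace.re : ℂ) • (Qᴴ * Q)) *ᵥ Zv (zX Q)) i.succ
    - zX Q i * ((Q - (Q.trace.re : ℂ) • (Qᴴ * Q)) *ᵥ Zv (zX Q)) 0

noncomputable def Xi (Q : Mat) : V × Yf := (zX Q, (Q.trace.re, wX Q))

/-! ### the parametrisations used for the metric -/
noncomputable def phU (U : Mat) (x : V × Yf) : Mat := U * Theta x * Uᴴ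

/-- normalisation of the vector of the fibre. -/
noncomputable def nrmz (U : Mat) (δ : ℝ) (x : V × Yf) : V × Yf :=
  (x.1, (Real.sqrt (kL U δ x.1 x.2 x.2))⁻¹ • x.2)

noncomputable def psU (U : Mat) (δ : ℝ) (Q : Mat) : V × Yf := nrmz U δ (Xi (Uᴴ * Q * U))

/-! ### charts -/
abbrev E8 := EuclideanSpace ℝ (Fin 8)

/-- chart data at `Q`. -/
structure CD (δ : ℝ) (Q : Mat) where
  U : Mat
  hU : Uᴴ * U = 1
  y : Yf
  hy : kL U δ 0 y y = 1
  hQ : Q = U * Theta (0, y) * Uᴴ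
  j : E8 →L[ℝ] V × Yf
  t : V × Yf →L[ℝ] E8
  tj : ∀ e, t (j e) = e
  jt : ∀ x, kL U δ 0 y x.2 = 0 → j (t x) = x
  lj : ∀ e, kL U δ 0 y (j e).2 = 0

namespace CD
variable {δ : ℝ} {Q : Mat} (D : CD δ Q)

/-- the point of `V × Yf` with coordinates `e`. -/
noncomputable def sg (e : E8) : V × Yf := (0, D.y) + D.j e

noncomputable def psi (e : E8) : Mat := D.U * Theta (D.sg e) * D.Uᴴ

/-- radial projection to the slice `k(y₀, y) = 1`. -/
noncomputable def sc (x : V × Yf) : V × Yf := (x.1, (kL D.U δ 0 D.y x.2)⁻¹ • x.2)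

noncomputable def rho (P : Mat) : E8 := D.t (D.sc (Xi (D.Uᴴ * P * D.U)) - (0, D.y))

def O : Set Mat :=
  {P | ((D.Uᴴ * P * D.U)ᴴ * (D.Uᴴ * P * D.U)) 0 0 ≠ 0 ∧ 0 < kL D.U δ 0 D.y (Xi (D.Uᴴ * P * D.U)).2}

end CD

end Pool.Agent.Helper46.M8
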